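import Pool.Agent.P8H70.EC.Main

/-!
The criterion in terms of the public definitions: components of velocity and vorticity, direction
fields.
-/

set_option autoImplicit false
set_option linter.unusedSectionVars false

open MeasureTheory Set Filter Topology
open scoped InnerProductSpace ENNReal ContDiff NNReal

namespace Pool.Agent.P8H70.EC

open H772R2.NS.Pub Pool.Agent.TH301.EQ

/-- `v ∈ L^a(0,T; L^b(Ω))`: `‖v(t)‖_{L^b(Ω)} ≤ B(t)` for almost every `t`, where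
`B ∈ L^a(0,T)`. -/
def Mixed {E : Type} [NormedAddCommGroup E] (Ω : Set R3) (T : ℝ) (a b : ℝ≥0∞)
    (v : ℝ → R3 → E) : Prop :=
  ∃ B : ℝ → ℝ, MemLp B a (volume.restrict (Ioo 0 T)) ∧
    ∀ᵐ t ∂(volume.restrict (Ioo 0 T)), AEStronglyMeasurable (v t) (volume.restrict Ω) ∧
      eLpNorm (v t) b (volume.restrict Ω) ≤ ENNReal.ofReal (B t)

/-- The product of three functions in `L^(a_m)(0,T; L^(b_m)(Ω))` is integrable:
`1/a₀ + 1/a₁ + 1/a₂ ≤ 1` and `1/b₀ + 1/b₁ + 1/b₂ ≤ 1`, with equality in the second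
inequality if the measure of `Ω` is infinite. -/
def Admissible (Ω : Set R3) (a₀ b₀ a₁ b₁ a₂ b₂ : ℝ≥0∞) : Prop :=
  1 / a₀ + 1 / a₁ + 1 / a₂ ≤ 1 ∧ 1 / b₀ + 1 / b₁ + 1 / b₂ ≤ 1 ∧
    (volume Ω = ⊤ → 1 / b₀ + 1 / b₁ + 1 / b₂ = 1)

/-- The matrix with the entry `1` in the place `(i, j)` and the entries `0` in all others. -/
noncomputable def unitMat (i j : Fin 3) : Mat :=
  (EuclideanSpace.single (i, j) (1 : ℝ) : EuclideanSpace ℝ (Fin 3 × Fin 3))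

/-- The component `k` (modulo 3) of the vorticity of a field with the Jacobian matrix `z`,
`∂_{k+1} u_{k+2} - ∂_{k+2} u_{k+1}`. -/
noncomputable def vort (k : Fin 3) (z : Mat) : ℝ :=
  ⟪unitMat (k + 2) (k + 1), z⟫_ℝ - ⟪unitMat (k + 1) (k + 2), z⟫_ℝ

theorem Mixed.abs {Ω : Set R3} {T : ℝ} {a b : ℝ≥0∞} {v : ℝ → R3 → ℝ} (h : Mixed Ω T a b v) :
    Mixed Ω T a b (fun t x => |v t x|) := by
  obtain ⟨B, hB, hv⟩ := h
  refine ⟨B, hB, ?_⟩
  filter_upwards [hv] with t ht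
  refine ⟨ht.1.norm, ?_⟩
  have h1 : eLpNorm (fun x => ‖v t x‖) b (volume.restrict Ω) = eLpNorm (v t) b (volume.restrict Ω) :=
    eLpNorm_norm _
  exact (le_of_eq h1).trans ht.2

theorem Mixed.norm {E : Type} [NormedAddCommGroup E] {Ω : Set R3} {T : ℝ} {a b : ℝ≥0∞}
    {v : ℝ → R3 → E} (h : Mixed Ω T a b v) : Mixed Ω T a b (fun t x => ‖v t x‖) := by
  obtain ⟨B, hB, hv⟩ := h
  refine ⟨B, hB, ?_⟩
  filter_upwards [hv] with t ht
  refine ⟨ht.1.norm, ?_⟩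
  rw [eLpNorm_norm]
  exact ht.2

theorem Mixed.two_mul {Ω : Set R3} {T : ℝ} {a b : ℝ≥0∞} {v : ℝ → R3 → ℝ}
    (h : Mixed Ω T a b v) : Mixed Ω T a b (fun t x => 2 * v t x) := by
  obtain ⟨B, hB, hv⟩ := h
  refine ⟨fun t => 2 * B t, hB.const_mul 2, ?_⟩
  filter_upwards [hv] with t ht
  refine ⟨ht.1.const_mul 2, ?_⟩
  have h1 := eLpNorm_const_smul (2 : ℝ) (v t) b (volume.restrict Ω)
  have h2 : eLpNorm (fun x => 2 * v t x) b (volume.restrict Ω)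
      = ENNReal.ofReal 2 * eLpNorm (v t) b (volume.restrict Ω) := by
    rw [Real.enorm_eq_ofReal zero_le_two] at h1
    exact h1
  rw [h2, ENNReal.ofReal_mul zero_le_two]
  exact mul_le_mul_right ht.2 _

/-- the criterion for the triple product, factors in mixed classes -/
theorem pub_mixed {Ω : Set R3} (hΩ : IsOpen Ω) {ν T : ℝ} (hν : 0 ≤ ν) (hT : 0 < T)
    {u : ℝ → L2 Ω R3} {G : ℝ → L2 Ω Mat} {f : ℝ → L2 Ω R3} (hu : IsWeakSolution Ω ν T u G f)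
    {K p : ℝ} (hK : 0 ≤ K) (hp : 8 / 3 ≤ p) (hp4 : p ≤ 4)
    (h4 : p ≠ 8 / 3 → ∫⁻ t in Ioo 0 T, norm4 (u t) ^ p ≠ ⊤)
    {ι : Type} [Fintype ι] {a b : ι → Fin 3 → ℝ≥0∞}
    (hab : ∀ l, Admissible Ω (a l 0) (b l 0) (a l 1) (b l 1) (a l 2) (b l 2))
    {V : ι → Fin 3 → ℝ → R3 → ℝ} (hV : ∀ l m, Mixed Ω T (a l m) (b l m) (V l m))
    (hyp : ∀ᵐ t ∂(volume.restrict (Ioo 0 T)), ∀ᵐ s ∂(volume.restrict (Ioo 0 T)),
      ∀ᵐ x ∂(volume.restrict Ω), |⟪(G s).fn x, wedge ((u s).fn x) ((u t).fn x)⟫_ℝ|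
        ≤ ‖(G s).fn x‖ * (K * modulus p u s t * (‖(u s).fn x‖ * ‖(u t).fn x‖))
          + ∑ l, V l 0 s x * V l 1 s x * V l 2 t x) :
    ∀ t ∈ Icc 0 T, energyDefect ν u G f t = 0 := by
  have hu' := toNS hu
  choose B hB hVB using hV
  have h4' : IntegrableOn (fun t => H772R2.NS.n4 (Ω := (Ω : Set H772R2.NS.E3)) (u t) ^ p)
      (Ioo 0 T) := by
    rcases eq_or_ne p (8 / 3) with h | h
    · rw [h]
      exact n4_auto (Ω := (Ω : Set H772R2.NS.E3)) hΩ hu'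
    · exact n4_int (Ω := (Ω : Set H772R2.NS.E3)) hΩ hu' (h4 h)
  refine main (Ω := (Ω : Set H772R2.NS.E3)) hΩ hν hT hu' hK hp hp4 h4' (a := a) (b := b)
    (fun l => (hab l).1) (fun l => (hab l).2.1) (fun h l => (hab l).2.2 h) (V := V) (B := B)
    hB hVB ?_
  filter_upwards [hyp] with t ht
  filter_upwards [ht] with s hs
  filter_upwards [hs] with x hx
  have h2 := wedge_eq ((u s).fn x) ((u t).fn x)
  have h3 : ⟪alt ((u s).fn x) ((u t).fn x), (G s).fn x⟫_ℝ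
      = ⟪(G s).fn x, wedge ((u s).fn x) ((u t).fn x)⟫_ℝ := by
    rw [← h2]
    exact real_inner_comm _ _
  exact (le_of_eq (congrArg abs h3)).trans hx

theorem inner_unit (i j : Fin 3) (z : H772R2.NS.M3) :
    ⟪(EuclideanSpace.single (i, j) (1 : ℝ) : H772R2.NS.M3), z⟫_ℝ = z (i, j) := by
  have := EuclideanSpace.inner_single_left (𝕜 := ℝ) (i, j) (1 : ℝ) z
  simpa using this

/-- the entries of a matrix -/
noncomputable def ent (z : Mat) (p : Fin 3 × Fin 3) : ℝ := (fun y : H772R2.NS.M3 => y p) z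

theorem inner_unitMat (i j : Fin 3) (z : Mat) : ⟪unitMat i j, z⟫_ℝ = ent z (i, j) :=
  inner_unit i j z

theorem inner_wedge (z : Mat) (a b : R3) : ⟪z, wedge a b⟫_ℝ
    = ∑ i, ∑ j, ent z (i, j) * (⟪e i, a⟫_ℝ * ⟪e j, b⟫_ℝ - ⟪e i, b⟫_ℝ * ⟪e j, a⟫_ℝ) :=
  H772R2.NS.inner_M3 z (wedge a b)

/-- the triple product in components -/
theorem abs_trip_comp (z : Mat) (a b : R3) :
    |⟪z, wedge a b⟫_ℝ| ≤ ∑ k : Fin 3, (|vort k z| * |⟪e (k + 1), a⟫_ℝ| * |⟪e (k + 2), b⟫_ℝ|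
      + |vort k z| * |⟪e (k + 2), a⟫_ℝ| * |⟪e (k + 1), b⟫_ℝ|) := by
  have h1 : ⟪z, wedge a b⟫_ℝ = ∑ k : Fin 3, -(vort k z)
      * (⟪e (k + 1), a⟫_ℝ * ⟪e (k + 2), b⟫_ℝ - ⟪e (k + 2), a⟫_ℝ * ⟪e (k + 1), b⟫_ℝ) := by
    rw [inner_wedge]
    simp only [vort, inner_unitMat, Fin.sum_univ_three]
    have a1 : (1 : Fin 3) + 1 = 2 := rfl
    have a2 : (1 : Fin 3) + 2 = 0 := rfl
    have a3 : (2 : Fin 3) + 1 = 0 := rfl
    have a4 : (2 : Fin 3) + 2 = 1 := rfl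
    rw [zero_add, zero_add, a1, a2, a3, a4]
    ring
  rw [h1]
  refine (Finset.abs_sum_le_sum_abs _ _).trans (Finset.sum_le_sum fun k _ => ?_)
  rw [abs_mul, abs_neg]
  have h4 := abs_sub (⟪e (k + 1), a⟫_ℝ * ⟪e (k + 2), b⟫_ℝ) (⟪e (k + 2), a⟫_ℝ * ⟪e (k + 1), b⟫_ℝ)
  rw [abs_mul, abs_mul] at h4
  have h5 := mul_le_mul_of_nonneg_left h4 (abs_nonneg (vort k z))
  linarith

/-- the components of velocity and vorticity -/
theorem pub_comp {Ω : Set R3} (hΩ : IsOpen Ω) {ν T : ℝ} (hν : 0 ≤ ν) (hT : 0 < T)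
    {u : ℝ → L2 Ω R3} {G : ℝ → L2 Ω Mat} {f : ℝ → L2 Ω R3} (hu : IsWeakSolution Ω ν T u G f)
    (hyp : ∀ k : Fin 3, ∃ α β a b c d : ℝ≥0∞, Admissible Ω α β a b c d ∧
      Mixed Ω T α β (fun t x => vort k ((G t).fn x)) ∧
      Mixed Ω T a b (fun t x => ⟪e (k + 1), (u t).fn x⟫_ℝ) ∧
      Mixed Ω T c d (fun t x => ⟪e (k + 2), (u t).fn x⟫_ℝ)) :
    ∀ t ∈ Icc 0 T, energyDefect ν u G f t = 0 := by
  choose α β a b c d hadm h0 h1 h2 using hyp
  refine pub_mixed hΩ hν hT hu (K := 0) (p := 8 / 3) le_rfl le_rfl (by norm_num)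
    (fun h => absurd rfl h) (ι := Fin 3 × Bool)
    (a := fun l => if l.2 then ![α l.1, a l.1, c l.1] else ![α l.1, c l.1, a l.1])
    (b := fun l => if l.2 then ![β l.1, b l.1, d l.1] else ![β l.1, d l.1, b l.1])
    (V := fun l => if l.2 then ![fun t x => |vort l.1 ((G t).fn x)|,
        fun t x => |⟪e (l.1 + 1), (u t).fn x⟫_ℝ|, fun t x => |⟪e (l.1 + 2), (u t).fn x⟫_ℝ|]
      else ![fun t x => |vort l.1 ((G t).fn x)|,
        fun t x => |⟪e (l.1 + 2), (u t).fn x⟫_ℝ|, fun t x => |⟪e (l.1 + 1), (u t).fn x⟫_ℝ|])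
    ?_ ?_ ?_
  · rintro ⟨k, o⟩
    cases o
    · obtain ⟨q1, q2, q3⟩ := hadm k
      refine ⟨?_, ?_, ?_⟩
      · show 1 / α k + 1 / c k + 1 / a k ≤ 1
        rwa [add_right_comm]
      · show 1 / β k + 1 / d k + 1 / b k ≤ 1
        rwa [add_right_comm]
      · intro h
        show 1 / β k + 1 / d k + 1 / b k = 1
        rw [add_right_comm]
        exact q3 h
    · exact hadm k
  · rintro ⟨k, o⟩ m
    cases o
    · fin_cases m
      · exact (h0 k).abs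
      · exact (h2 k).abs
      · exact (h1 k).abs
    · fin_cases m
      · exact (h0 k).abs
      · exact (h1 k).abs
      · exact (h2 k).abs
  · refine Eventually.of_forall fun t => Eventually.of_forall fun s => Eventually.of_forall
      fun x => ?_
    refine (abs_trip_comp _ _ _).trans (le_of_eq ?_)
    rw [Fintype.sum_prod_type, zero_mul, zero_mul, mul_zero, zero_add]
    refine Finset.sum_congr rfl fun k _ => ?_
    rw [Fintype.sum_bool]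
    rfl

/-- direction fields, mixed classes -/
theorem pub_dir_mixed {Ω : Set R3} (hΩ : IsOpen Ω) {ν T : ℝ} (hν : 0 ≤ ν) (hT : 0 < T)
    {u : ℝ → L2 Ω R3} {G : ℝ → L2 Ω Mat} {f : ℝ → L2 Ω R3} (hu : IsWeakSolution Ω ν T u G f)
    {K p : ℝ} (hK : 0 ≤ K) (hp : 8 / 3 ≤ p) (hp4 : p ≤ 4)
    (h4 : p ≠ 8 / 3 → ∫⁻ t in Ioo 0 T, norm4 (u t) ^ p ≠ ⊤)
    {d : ℝ → R3 → R3} (hd : ∀ t ∈ Ioo 0 T, ∀ x ∈ Ω, ‖d t x‖ = 1)
    (hd2 : ∀ s ∈ Ioo 0 T, ∀ t ∈ Ioo 0 T, ∀ x ∈ Ω,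
      ‖d s x - d t x‖ ≤ K * modulus p u s t)
    {α β a b c c' : ℝ≥0∞} (hadm : Admissible Ω α β a b c c')
    (h0 : Mixed Ω T α β (fun t x => (G t).fn x))
    (h1 : Mixed Ω T a b (fun t x => perp (d t x) ((u t).fn x)))
    (h2 : Mixed Ω T c c' (fun t x => (u t).fn x)) :
    ∀ t ∈ Icc 0 T, energyDefect ν u G f t = 0 := by
  have hΩm : MeasurableSet Ω := IsOpen.measurableSet (α := H772R2.NS.E3) hΩ
  refine pub_mixed hΩ hν hT hu (K := 2 * K) (by linarith) hp hp4 h4 (ι := Bool)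
    (a := fun l => if l then ![α, a, c] else ![α, c, a])
    (b := fun l => if l then ![β, b, c'] else ![β, c', b])
    (V := fun l => if l then ![fun t x => ‖(G t).fn x‖,
        fun t x => 2 * ‖perp (d t x) ((u t).fn x)‖, fun t x => ‖(u t).fn x‖]
      else ![fun t x => ‖(G t).fn x‖,
        fun t x => ‖(u t).fn x‖, fun t x => 2 * ‖perp (d t x) ((u t).fn x)‖])
    ?_ ?_ ?_
  · intro o
    cases o
    · obtain ⟨q1, q2, q3⟩ := hadm
      refine ⟨?_, ?_, ?_⟩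
      · show 1 / α + 1 / c + 1 / a ≤ 1
        rwa [add_right_comm]
      · show 1 / β + 1 / c' + 1 / b ≤ 1
        rwa [add_right_comm]
      · intro h
        show 1 / β + 1 / c' + 1 / b = 1
        rw [add_right_comm]
        exact q3 h
    · exact hadm
  · intro o m
    cases o
    · fin_cases m
      · exact h0.norm
      · exact h2.norm
      · exact h1.norm.two_mul
    · fin_cases m
      · exact h0.norm
      · exact h1.norm.two_mul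
      · exact h2.norm
  · filter_upwards [ae_restrict_mem measurableSet_Ioo] with t ht
    filter_upwards [ae_restrict_mem measurableSet_Ioo] with s hs
    filter_upwards [ae_restrict_mem hΩm] with x hx
    have h3 := norm_alt_dir (a := (u s).fn x) (b := (u t).fn x) (hd s hs x hx) (hd t ht x hx)
      (hd2 s hs t ht x hx)
    refine (abs_trip_le _ _ _ h3).trans (le_of_eq ?_)
    rw [Fintype.sum_bool]
    show _ = ‖(G s).fn x‖ * (2 * K * modulus p u s t * (‖(u s).fn x‖ * ‖(u t).fn x‖))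
      + (‖(G s).fn x‖ * (2 * ‖perp (d s x) ((u s).fn x)‖) * ‖(u t).fn x‖
        + ‖(G s).fn x‖ * ‖(u s).fn x‖ * (2 * ‖perp (d t x) ((u t).fn x)‖))
    show ‖(G s).fn x‖ * (2 * (K * modulus p u s t) * ‖(u s).fn x‖ * ‖(u t).fn x‖
        + 2 * ‖perp (d s x) ((u s).fn x)‖ * ‖(u t).fn x‖
        + ‖(u s).fn x‖ * (2 * ‖perp (d t x) ((u t).fn x)‖)) = _
    ring

end Pool.Agent.P8H70.EC
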