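import Pool.Agent.P8H70.EC.Tri

/-!
Energy equality from mixed classes of the factors of the triple product at two times.
-/

set_option autoImplicit false
set_option linter.unusedSectionVars false

open MeasureTheory Set Filter Topology
open scoped InnerProductSpace ENNReal ContDiff NNReal

namespace Pool.Agent.P8H70.EC

open H772R2.NS Pool.Agent.TH301.EQ

theorem pow_two_le {X Y α β : ℝ} (hX : 1 ≤ X) (hY : 1 ≤ Y) (hα : 0 ≤ α)
    (hβ : 0 ≤ β) (h : α + β ≤ 1) : X ^ α * Y ^ β ≤ X + Y := by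
  have h1 : X ^ α ≤ X ^ (1 - β) := Real.rpow_le_rpow_of_exponent_le hX (by linarith)
  have h2 := young_two (X := X) (Y := Y) (α := 1 - β) (β := β) (by linarith) (by linarith)
    (by linarith) hβ (by ring)
  exact (mul_le_mul_of_nonneg_right h1 (Real.rpow_nonneg (by linarith) _)).trans h2

/-- exponents of the three factors in time -/
theorem time_exp {a b c : ℝ≥0∞} (h : 1 / a + 1 / b + 1 / c ≤ 1) :
    a ≠ 0 ∧ b ≠ 0 ∧ c ≠ 0 ∧ (1 / a).toReal + (1 / b).toReal + (1 / c).toReal ≤ 1 := by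
  have h1 : 1 / a ≤ 1 := (le_add_right (le_add_right le_rfl)).trans h
  have h2 : 1 / b ≤ 1 := (le_add_right (le_add_left le_rfl)).trans h
  have h3 : 1 / c ≤ 1 := (le_add_left le_rfl).trans h
  have key : ∀ {y : ℝ≥0∞}, 1 / y ≤ 1 → y ≠ 0 := by
    rintro y hy rfl
    rw [ENNReal.div_zero (by norm_num)] at hy
    simp at hy
  have n1 : 1 / a ≠ ⊤ := ne_top_of_le_ne_top ENNReal.one_ne_top h1
  have n2 : 1 / b ≠ ⊤ := ne_top_of_le_ne_top ENNReal.one_ne_top h2
  have n3 : 1 / c ≠ ⊤ := ne_top_of_le_ne_top ENNReal.one_ne_top h3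
  refine ⟨key h1, key h2, key h3, ?_⟩
  have h4 := ENNReal.toReal_mono ENNReal.one_ne_top h
  rwa [ENNReal.toReal_add (ENNReal.add_ne_top.2 ⟨n1, n2⟩) n3, ENNReal.toReal_add n1 n2,
    ENNReal.toReal_one] at h4

variable {Ω : Set E3} {ν T : ℝ} {u : ℝ → L2V Ω} {G : ℝ → L2M Ω} {f : ℝ → L2V Ω}

/-- **Energy equality from the triple products at two times.** -/
theorem main (hΩ : IsOpen Ω) {K p : ℝ} (hν : 0 ≤ ν) (hT : 0 < T)
    (h : IsWeakSolution Ω ν T u G f) (hK : 0 ≤ K) (hp : 8 / 3 ≤ p) (hp4 : p ≤ 4)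
    (h4 : IntegrableOn (fun t => n4 (u t) ^ p) (Ioo 0 T))
    {ι : Type} [Fintype ι] {a b : ι → Fin 3 → ℝ≥0∞}
    (ha : ∀ l, 1 / a l 0 + 1 / a l 1 + 1 / a l 2 ≤ 1)
    (hb : ∀ l, 1 / b l 0 + 1 / b l 1 + 1 / b l 2 ≤ 1)
    (hb' : volume Ω = ⊤ → ∀ l, 1 / b l 0 + 1 / b l 1 + 1 / b l 2 = 1)
    {V : ι → Fin 3 → ℝ → E3 → ℝ} {B : ι → Fin 3 → ℝ → ℝ}
    (hB : ∀ l m, MemLp (B l m) (a l m) (volume.restrict (Ioo 0 T)))
    (hV : ∀ l m, ∀ᵐ t ∂(volume.restrict (Ioo 0 T)),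
      AEStronglyMeasurable (V l m t) (volume.restrict Ω) ∧
      eLpNorm (V l m t) (b l m) (volume.restrict Ω) ≤ ENNReal.ofReal (B l m t))
    (hyp : ∀ᵐ t ∂(volume.restrict (Ioo 0 T)), ∀ᵐ s ∂(volume.restrict (Ioo 0 T)),
      ∀ᵐ x ∂(volume.restrict Ω), |⟪alt (u s x) (u t x), G s x⟫_ℝ|
        ≤ ‖G s x‖ * (K * (|s - t| ^ (2 / p - 1 / 2) + n4 (u s) ^ (p / 2 - 2)
          + n4 (u t) ^ (p / 2 - 2)) * (‖u s x‖ * ‖u t x‖))
          + ∑ l, V l 0 s x * V l 1 s x * V l 2 t x) :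
    ∀ t ∈ Icc 0 T, energyDefect ν u G f t = 0 := by
  obtain ⟨M, hM⟩ := h.bdd
  have hM0 : 0 ≤ M := (norm_nonneg _).trans (hM 0 ⟨le_rfl, hT.le⟩)
  have hG2 : Integrable (fun t => ‖G t‖ ^ 2) (volume.restrict (Ioo 0 T)) :=
    (memLp_two_iff_integrable_sq_norm h.gradL2.aestronglyMeasurable).mp h.gradL2
  have h4' : Integrable (fun t => n4 (u t) ^ p) (volume.restrict (Ioo 0 T)) := h4
  have hane : ∀ l m, a l m ≠ 0 := by
    intro l m
    obtain ⟨h0, h1, h2, -⟩ := time_exp (ha l)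
    fin_cases m
    · exact h0
    · exact h1
    · exact h2
  have hmaj : ∀ l m, ∃ C : ℝ, 0 ≤ C ∧ ∃ A : ℝ → ℝ, (∀ t, 0 ≤ A t) ∧
      Integrable A (volume.restrict (Ioo 0 T)) ∧
      ∀ᵐ t ∂(volume.restrict (Ioo 0 T)), |B l m t| ≤ C * A t ^ (1 / a l m).toReal :=
    fun l m => exists_major (hane l m) (hB l m)
  choose C hC0 A hA0 hAi hAB using hmaj
  set S : ℝ → ℝ := fun t => ∑ l, ∑ m, A l m t with hS
  have hS0 : ∀ t, 0 ≤ S t := fun t =>
    Finset.sum_nonneg fun l _ => Finset.sum_nonneg fun m _ => hA0 l m t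
  have hSi : Integrable S (volume.restrict (Ioo 0 T)) :=
    integrable_finsetSum _ fun l _ => integrable_finsetSum _ fun m _ => hAi l m
  have hAS : ∀ l m t, A l m t ≤ S t := fun l m t => by
    refine le_trans ?_ (Finset.single_le_sum (f := fun l => ∑ m, A l m t)
      (fun l _ => Finset.sum_nonneg fun m _ => hA0 l m t) (Finset.mem_univ l))
    exact Finset.single_le_sum (f := fun m => A l m t) (fun m _ => hA0 l m t) (Finset.mem_univ m)
  set D : ℝ → ℝ := fun t => 1 + ‖G t‖ ^ 2 + n4 (u t) ^ p + S t with hD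
  have hn0 : ∀ t, 0 ≤ n4 (u t) := fun t => ENNReal.toReal_nonneg
  have hD1 : ∀ t, 1 ≤ D t := fun t => by
    have h1 := hS0 t
    have h2 := Real.rpow_nonneg (hn0 t) p
    have h3 : 0 ≤ ‖G t‖ ^ 2 := by positivity
    simp only [hD]
    linarith
  have hD0 : ∀ t, 0 ≤ D t := fun t => zero_le_one.trans (hD1 t)
  have hDi : Integrable D (volume.restrict (Ioo 0 T)) :=
    (((integrable_const (1 : ℝ)).add hG2).add h4').add hSi
  set κ : ℝ := (kap ((volume : Measure E3).restrict Ω)).toReal with hκ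
  have hκ0 : 0 ≤ κ := ENNReal.toReal_nonneg
  set Q : ℝ := κ * ∑ l, C l 0 * C l 1 * C l 2 with hQ
  have hQ0 : 0 ≤ Q := mul_nonneg hκ0 (Finset.sum_nonneg fun l _ =>
    mul_nonneg (mul_nonneg (hC0 l 0) (hC0 l 1)) (hC0 l 2))
  set C1 : ℝ := 3 * K + Q with hC1
  have hC10 : 0 ≤ C1 := by positivity
  have hp0 : 0 < p := by linarith
  have hip : 1 / p ≤ 3 / 8 := by
    rw [div_le_iff₀ hp0]; linarith
  have hip4 : 1 / 4 ≤ 1 / p := one_div_le_one_div_of_le hp0 hp4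
  set θ : ℝ := 2 / p - 1 / 2 with hθ
  have hθp : θ = 2 * (1 / p) - 1 / 2 := by rw [hθ]; ring
  have hθ0 : 0 ≤ θ := by rw [hθp]; linarith
  have hVa : ∀ᵐ t ∂(volume.restrict (Ioo 0 T)), ∀ l m,
      AEStronglyMeasurable (V l m t) (volume.restrict Ω) ∧
      eLpNorm (V l m t) (b l m) (volume.restrict Ω) ≤ ENNReal.ofReal (B l m t) :=
    ae_all_iff.2 fun l => ae_all_iff.2 fun m => hV l m
  have hABa : ∀ᵐ t ∂(volume.restrict (Ioo 0 T)), ∀ l m,
      |B l m t| ≤ C l m * A l m t ^ (1 / a l m).toReal :=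
    ae_all_iff.2 fun l => ae_all_iff.2 fun m => hAB l m
  refine energy_eq_two hΩ hν hT h hM (ψ := fun t => (1 + C1) * D t)
    (fun t => mul_nonneg (by linarith) (hD0 t)) (hDi.const_mul (1 + C1)) ?_
  filter_upwards [h.grad, hVa, hyp, hABa, ae_restrict_mem measurableSet_Ioo] with t ht hvt hyt hAt
    htI
  filter_upwards [h.grad, hVa, hyt, hABa, ae_restrict_mem measurableSet_Ioo] with s hs hvs hys hAs
    hsI
  have hWt : (u t, G t) ∈ graphW Ω := mem_graphW.mpr ht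
  have hWs : (u s, G s) ∈ graphW Ω := mem_graphW.mpr hs
  set L : ℝ := |s - t| with hL
  have hL0 : 0 ≤ L := abs_nonneg _
  set m : ℝ := L ^ θ + n4 (u s) ^ (p / 2 - 2) + n4 (u t) ^ (p / 2 - 2) with hm
  have hm0 : 0 ≤ m := by
    have h1 := Real.rpow_nonneg (hn0 s) (p / 2 - 2)
    have h2 := Real.rpow_nonneg (hn0 t) (p / 2 - 2)
    positivity
  have hk : 0 ≤ K * m := by positivity
  have k3 := tri_bound hΩ.measurableSet hWs hWt hb hb'
    (W := fun l => ![V l 0 s, V l 1 s, V l 2 t]) (B := fun l => ![B l 0 s, B l 1 s, B l 2 t]) hk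
    (by
      intro l j
      fin_cases j
      · exact (hvs l 0).1
      · exact (hvs l 1).1
      · exact (hvt l 2).1)
    (by
      intro l j
      fin_cases j
      · exact (hvs l 0).2
      · exact (hvs l 1).2
      · exact (hvt l 2).2)
    (by
      filter_upwards [hys] with x hx
      simpa using hx)
  simp only [Matrix.cons_val_zero, Matrix.cons_val_one, Matrix.cons_val] at k3
  set X : ℝ := D s with hX
  set Y : ℝ := D t with hY
  have hX0 : 0 ≤ X := hD0 s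
  have hY0 : 0 ≤ Y := hD0 t
  -- the roots
  have rG : ∀ r, ‖G r‖ ≤ D r ^ (1 / 2 : ℝ) := fun r => by
    refine le_root_two (norm_nonneg _) ?_
    have h1 := hS0 r
    have h2 := Real.rpow_nonneg (hn0 r) p
    simp only [hD]
    linarith
  have rn : ∀ r, n4 (u r) ≤ D r ^ (1 / p) := fun r => by
    refine le_root (hn0 r) hp0 ?_
    have h1 := hS0 r
    have h2 : 0 ≤ ‖G r‖ ^ 2 := by positivity
    simp only [hD]
    linarith
  have rA : ∀ l j r, A l j r ^ (1 / a l j).toReal ≤ D r ^ (1 / a l j).toReal := fun l j r => by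
    refine Real.rpow_le_rpow (hA0 l j r) ?_ ENNReal.toReal_nonneg
    have h1 := Real.rpow_nonneg (hn0 r) p
    have h2 : 0 ≤ ‖G r‖ ^ 2 := by positivity
    have h3 := hAS l j r
    simp only [hD]
    linarith
  have hXh : 0 ≤ X ^ (1 / 2 : ℝ) := Real.rpow_nonneg hX0 _
  have rn2 : ∀ r, n4 (u r) * n4 (u r) ^ (p / 2 - 2) ≤ D r ^ (1 / 2 - 1 / p) := fun r => by
    have e1 : p / 2 - 2 + 1 = p / 2 - 1 := by ring
    have a1 := mul_rpow_le (e := p / 2 - 2) (hn0 r) (by linarith)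
    rw [e1] at a1
    refine a1.trans ?_
    have e2 : D r ^ (1 / 2 - 1 / p) = (D r ^ (1 / p)) ^ (p / 2 - 1) := by
      rw [← Real.rpow_mul (hD0 r)]
      congr 1
      field_simp
    rw [e2]
    exact Real.rpow_le_rpow (hn0 r) (rn r) (by linarith)
  have T1 : ‖G s‖ * (K * m * (n4 (u s) * n4 (u t)))
      ≤ K * (X + Y + L * (X * Y)) + K * (X + Y) + K * (X + Y) := by
    have y1 := young_step hX0 hY0 hL0 (α := 1 - 1 / p) (β := 1 / 2 - 1 / p) (δ := θ)
      (by linarith) (by linarith) hθ0 (by rw [hθp]; ring)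
    have e1 : (1 - 1 / p) + θ = 1 / 2 + 1 / p := by rw [hθp]; ring
    have e2 : (1 / 2 - 1 / p) + θ = 1 / p := by rw [hθp]; ring
    rw [e1, e2, Real.rpow_add_of_nonneg hX0 (by norm_num) (by positivity)] at y1
    have y2 := young_two hX0 hY0 (α := 1 / 2 + (1 / 2 - 1 / p)) (β := 1 / p) (by linarith)
      (by positivity) (by ring)
    rw [Real.rpow_add_of_nonneg hX0 (by norm_num) (by linarith)] at y2
    have y3 := young_two hX0 hY0 (α := 1 / 2 + 1 / p) (β := 1 / 2 - 1 / p) (by positivity)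
      (by linarith) (by ring)
    rw [Real.rpow_add_of_nonneg hX0 (by norm_num) (by positivity)] at y3
    have a1 : ‖G s‖ * n4 (u s) * n4 (u t) * L ^ θ ≤ X + Y + L * (X * Y) := by
      refine le_trans ?_ y1
      refine mul_le_mul_of_nonneg_right ?_ (by positivity)
      exact mul_le_mul (mul_le_mul (rG s) (rn s) (hn0 s) hXh) (rn t) (hn0 t) (by positivity)
    have hns := hn0 s
    have hnt := hn0 t
    have a2 : ‖G s‖ * (n4 (u s) * n4 (u s) ^ (p / 2 - 2)) * n4 (u t) ≤ X + Y := by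
      refine le_trans ?_ y2
      exact mul_le_mul (mul_le_mul (rG s) (rn2 s) (by positivity) hXh) (rn t) (hn0 t)
        (by positivity)
    have a3 : ‖G s‖ * n4 (u s) * (n4 (u t) * n4 (u t) ^ (p / 2 - 2)) ≤ X + Y := by
      refine le_trans ?_ y3
      exact mul_le_mul (mul_le_mul (rG s) (rn s) (hn0 s) hXh) (rn2 t) (by positivity)
        (by positivity)
    have e3 : ‖G s‖ * (K * m * (n4 (u s) * n4 (u t)))
        = K * (‖G s‖ * n4 (u s) * n4 (u t) * L ^ θ)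
          + K * (‖G s‖ * (n4 (u s) * n4 (u s) ^ (p / 2 - 2)) * n4 (u t))
          + K * (‖G s‖ * n4 (u s) * (n4 (u t) * n4 (u t) ^ (p / 2 - 2))) := by
      rw [hm]; ring
    rw [e3]
    exact add_le_add (add_le_add (mul_le_mul_of_nonneg_left a1 hK)
      (mul_le_mul_of_nonneg_left a2 hK)) (mul_le_mul_of_nonneg_left a3 hK)
  have T2 : κ * ∑ l, |B l 0 s| * |B l 1 s| * |B l 2 t| ≤ Q * (X + Y) := by
    rw [hQ, mul_assoc, Finset.sum_mul]
    refine mul_le_mul_of_nonneg_left (Finset.sum_le_sum fun l _ => ?_) hκ0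
    obtain ⟨-, -, -, hsum⟩ := time_exp (ha l)
    have r0 : |B l 0 s| ≤ C l 0 * X ^ (1 / a l 0).toReal :=
      (hAs l 0).trans (mul_le_mul_of_nonneg_left (rA l 0 s) (hC0 l 0))
    have r1 : |B l 1 s| ≤ C l 1 * X ^ (1 / a l 1).toReal :=
      (hAs l 1).trans (mul_le_mul_of_nonneg_left (rA l 1 s) (hC0 l 1))
    have r2 : |B l 2 t| ≤ C l 2 * Y ^ (1 / a l 2).toReal :=
      (hAt l 2).trans (mul_le_mul_of_nonneg_left (rA l 2 t) (hC0 l 2))
    have c0 := hC0 l 0
    have c1 := hC0 l 1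
    have c2 := hC0 l 2
    have x0 : 0 ≤ X ^ (1 / a l 0).toReal := Real.rpow_nonneg hX0 _
    have x1 : 0 ≤ X ^ (1 / a l 1).toReal := Real.rpow_nonneg hX0 _
    have x2 : 0 ≤ Y ^ (1 / a l 2).toReal := Real.rpow_nonneg hY0 _
    have y1 := pow_two_le (X := X) (Y := Y) (α := (1 / a l 0).toReal + (1 / a l 1).toReal)
      (β := (1 / a l 2).toReal) (hD1 s) (hD1 t)
      (add_nonneg ENNReal.toReal_nonneg ENNReal.toReal_nonneg) ENNReal.toReal_nonneg hsum
    rw [Real.rpow_add_of_nonneg hX0 ENNReal.toReal_nonneg ENNReal.toReal_nonneg] at y1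
    calc |B l 0 s| * |B l 1 s| * |B l 2 t|
        ≤ (C l 0 * X ^ (1 / a l 0).toReal) * (C l 1 * X ^ (1 / a l 1).toReal)
          * (C l 2 * Y ^ (1 / a l 2).toReal) := by
          refine mul_le_mul (mul_le_mul r0 r1 (abs_nonneg _) (by positivity)) r2 (abs_nonneg _)
            (by positivity)
      _ = C l 0 * C l 1 * C l 2 * (X ^ (1 / a l 0).toReal * X ^ (1 / a l 1).toReal
          * Y ^ (1 / a l 2).toReal) := by ring
      _ ≤ _ := mul_le_mul_of_nonneg_left y1 (by positivity)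
  have hXY : 0 ≤ L * (X * Y) := by positivity
  have k4 : |⟪tensL (u s), G t⟫_ℝ| ≤ C1 * (X + Y + L * (X * Y)) := by
    have e2 : C1 * (X + Y + L * (X * Y)) = (K * (X + Y + L * (X * Y)) + K * (X + Y) + K * (X + Y))
        + Q * (X + Y) + (2 * K + Q) * (L * (X * Y)) := by
      rw [hC1]; ring
    rw [e2]
    have e3 : 0 ≤ (2 * K + Q) * (L * (X * Y)) := by positivity
    linarith
  refine k4.trans ?_
  have z1 : C1 * X ≤ (1 + C1) * X := mul_le_mul_of_nonneg_right (by linarith) hX0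
  have z2 : C1 * Y ≤ (1 + C1) * Y := mul_le_mul_of_nonneg_right (by linarith) hY0
  have z3 : C1 * (L * (X * Y)) ≤ L * ((1 + C1) * X * ((1 + C1) * Y)) := by
    have e1 : L * ((1 + C1) * X * ((1 + C1) * Y)) = (1 + C1) ^ 2 * (L * (X * Y)) := by ring
    rw [e1]
    refine mul_le_mul_of_nonneg_right ?_ hXY
    nlinarith
  have e5 : C1 * (X + Y + L * (X * Y)) = C1 * X + C1 * Y + C1 * (L * (X * Y)) := by ring
  rw [e5]
  exact add_le_add (add_le_add z1 z2) z3

end Pool.Agent.P8H70.EC
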