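import Pool.Agent.P8H70.EC.Pub

/-!
The classes to which every weak solution belongs, and a criterion for one component of the
velocity and of the vorticity.
-/

set_option autoImplicit false
set_option linter.unusedSectionVars false

open MeasureTheory Set Filter Topology
open scoped InnerProductSpace ENNReal ContDiff NNReal

namespace Pool.Agent.P8H70.EC

open H772R2.NS Pool.Agent.TH301.EQ

/-- interpolation between `L²` and `L⁶` -/
theorem interp {α : Type*} {mα : MeasurableSpace α} {μ : Measure α} {w : α → E3}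
    (hw : AEStronglyMeasurable w μ) {d θ : ℝ} (h2 : 2 ≤ d) (h6 : d ≤ 6) (hθ : θ = 3 / 2 - 3 / d) :
    eLpNorm w (ENNReal.ofReal d) μ ≤ eLpNorm w 2 μ ^ (1 - θ) * eLpNorm w 6 μ ^ θ := by
  have hd0 : 0 < d := by linarith
  have hH := ENNReal.lintegral_mul_norm_pow_le (μ := μ) (f := fun x => ‖w x‖ₑ ^ (2 : ℝ))
    (g := fun x => ‖w x‖ₑ ^ (6 : ℝ)) (hw.enorm.pow_const _) (hw.enorm.pow_const _)
    (p := (6 - d) / 4) (q := (d - 2) / 4) (by linarith) (by linarith) (by ring)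
  have e0 : ∀ x, ‖w x‖ₑ ^ d = (‖w x‖ₑ ^ (2 : ℝ)) ^ ((6 - d) / 4) * (‖w x‖ₑ ^ (6 : ℝ)) ^ ((d - 2) / 4) := by
    intro x
    rw [← ENNReal.rpow_mul, ← ENNReal.rpow_mul, ← ENNReal.rpow_add_of_nonneg _ _ (by linarith)
      (by linarith)]
    congr 1
    ring
  have e2 : eLpNorm w (ENNReal.ofReal d) μ = (∫⁻ x, ‖w x‖ₑ ^ d ∂μ) ^ (1 / d) := by
    rw [eLpNorm_eq_lintegral_rpow_enorm_toReal (by simpa using hd0) (by simp),
      ENNReal.toReal_ofReal hd0.le]
  have e3 : eLpNorm w 2 μ = (∫⁻ x, ‖w x‖ₑ ^ (2 : ℝ) ∂μ) ^ (1 / (2 : ℝ)) := by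
    rw [eLpNorm_eq_lintegral_rpow_enorm_toReal (by norm_num) (by norm_num)]
    simp only [ENNReal.toReal_ofNat]
  have e4 : eLpNorm w 6 μ = (∫⁻ x, ‖w x‖ₑ ^ (6 : ℝ) ∂μ) ^ (1 / (6 : ℝ)) := by
    rw [eLpNorm_eq_lintegral_rpow_enorm_toReal (by norm_num) (by norm_num)]
    simp only [ENNReal.toReal_ofNat]
  rw [e2, e3, e4]
  simp_rw [e0]
  refine (ENNReal.rpow_le_rpow hH (by positivity)).trans (le_of_eq ?_)
  rw [ENNReal.mul_rpow_of_nonneg _ _ (by positivity : (0 : ℝ) ≤ 1 / d), ← ENNReal.rpow_mul,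
    ← ENNReal.rpow_mul, ← ENNReal.rpow_mul, ← ENNReal.rpow_mul]
  congr 1
  · congr 1
    rw [hθ]
    field_simp
    ring
  · congr 1
    rw [hθ]
    field_simp
    ring

theorem div_div_self {c : ℝ≥0∞} (hc : c ≠ 0) : 2 / (2 / c) = c := by
  rcases eq_or_ne c ⊤ with h | h
  · rw [h, ENNReal.div_top, ENNReal.div_zero (by norm_num)]
  · rw [ENNReal.div_eq_inv_mul, ENNReal.inv_div (Or.inl h) (Or.inl hc), ENNReal.div_eq_inv_mul,
      mul_comm, ← mul_assoc, ENNReal.mul_inv_cancel (by norm_num) (by norm_num), one_mul]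

variable {Ω : Set E3} {ν T : ℝ} {u : ℝ → L2V Ω} {G : ℝ → L2M Ω} {f : ℝ → L2V Ω}

/-- every weak solution belongs to `L^c(0,T; L^d(Ω))` if `2/c + 3/d = 3/2`, `2 ≤ d ≤ 6` -/
theorem energy (hΩ : IsOpen Ω) (h : IsWeakSolution Ω ν T u G f) {c d : ℝ≥0∞} (hc : c ≠ 0)
    (hy1 : 1 / 6 ≤ (1 / d).toReal) (hy2 : (1 / d).toReal ≤ 1 / 2)
    (e : 2 * (1 / c).toReal = 3 / 2 - 3 * (1 / d).toReal) :
    ∃ B : ℝ → ℝ, MemLp B c (volume.restrict (Ioo 0 T)) ∧
      ∀ᵐ t ∂(volume.restrict (Ioo 0 T)), AEStronglyMeasurable (u t) (volume.restrict Ω) ∧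
        eLpNorm (u t) d (volume.restrict Ω) ≤ ENNReal.ofReal (B t) := by
  obtain ⟨M, hM⟩ := h.bdd
  have hyd : (1 / d).toReal = 1 / d.toReal := by rw [ENNReal.toReal_div, ENNReal.toReal_one]
  rw [hyd] at hy1 hy2 e
  have hd0 : 0 < d.toReal := by
    rcases lt_or_eq_of_le (ENNReal.toReal_nonneg (a := d)) with h0 | h0
    · exact h0
    · rw [← h0] at hy1
      norm_num at hy1
  have hdt : d ≠ ⊤ := by
    rintro rfl
    simp at hd0
  have hd2 : 2 ≤ d.toReal := by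
    rw [div_le_div_iff₀ hd0 two_pos] at hy2
    linarith
  have hd6 : d.toReal ≤ 6 := by
    rw [div_le_div_iff₀ (by norm_num) hd0] at hy1
    linarith
  set θ : ℝ := 3 / 2 - 3 / d.toReal with hθ
  have hθc : (2 / c).toReal = θ := by
    have e1 : (2 / c).toReal = 2 * (1 / c).toReal := by
      rw [ENNReal.toReal_div, ENNReal.toReal_div]
      simp
      ring
    rw [e1, e, hθ]
    ring
  have hθ0 : 0 ≤ θ := by rw [← hθc]; exact ENNReal.toReal_nonneg
  have hθ1 : θ ≤ 1 := by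
    have : 1 / 6 ≤ 1 / d.toReal := hy1
    have e3 : 3 / d.toReal = 3 * (1 / d.toReal) := by ring
    rw [hθ, e3]
    linarith
  set K : ℝ := |M| ^ (1 - θ) * (CS : ℝ) ^ θ with hK
  refine ⟨fun t => K * ‖G t‖ ^ θ, ?_, ?_⟩
  · have h1 := h.gradL2.norm_rpow_div (2 / c)
    rw [div_div_self hc, hθc] at h1
    exact h1.const_mul K
  · filter_upwards [h.grad, ae_restrict_mem measurableSet_Ioo] with t ht htI
    refine ⟨Lp.aestronglyMeasurable _, ?_⟩
    have hW : (u t, G t) ∈ graphW Ω := mem_graphW.mpr ht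
    have h6 := six_le hΩ.measurableSet hW
    have h2 : eLpNorm (u t) 2 (volume.restrict Ω) ≤ ENNReal.ofReal |M| := by
      have g2 : eLpNorm (u t) 2 (volume.restrict Ω) = ‖u t‖ₑ := (Lp.enorm_def _).symm
      rw [g2, ← ofReal_norm]
      exact ENNReal.ofReal_le_ofReal ((hM t (Ioo_subset_Icc_self htI)).trans (le_abs_self _))
    have h3 := interp (μ := volume.restrict Ω) (w := u t) (Lp.aestronglyMeasurable _) hd2 hd6 hθ
    rw [ENNReal.ofReal_toReal hdt] at h3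
    refine h3.trans ?_
    calc eLpNorm (u t) 2 (volume.restrict Ω) ^ (1 - θ) * eLpNorm (u t) 6 (volume.restrict Ω) ^ θ
        ≤ ENNReal.ofReal |M| ^ (1 - θ) * ((CS : ℝ≥0∞) * ‖G t‖ₑ) ^ θ :=
          mul_le_mul' (ENNReal.rpow_le_rpow h2 (by linarith)) (ENNReal.rpow_le_rpow h6 hθ0)
      _ = ENNReal.ofReal (K * ‖G t‖ ^ θ) := by
          have e1 : (CS : ℝ≥0∞) * ‖G t‖ₑ = ENNReal.ofReal ((CS : ℝ) * ‖G t‖) := by
            rw [ENNReal.ofReal_mul (by positivity), ofReal_norm, ENNReal.ofReal_coe_nnreal]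
          rw [e1, ENNReal.ofReal_rpow_of_nonneg (abs_nonneg _) (by linarith),
            ENNReal.ofReal_rpow_of_nonneg (by positivity) hθ0,
            ← ENNReal.ofReal_mul (by positivity), Real.mul_rpow (by positivity) (norm_nonneg _),
            hK]
          congr 1
          ring
      _ ≤ _ := le_rfl

end Pool.Agent.P8H70.EC
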