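import Pool.Agent.P8H70.EC.Energy

/-!
One component of the velocity and the same component of the vorticity.
-/

set_option autoImplicit false
set_option linter.unusedSectionVars false

open MeasureTheory Set Filter Topology
open scoped InnerProductSpace ENNReal ContDiff NNReal

namespace Pool.Agent.P8H70.EC

open H772R2.NS.Pub Pool.Agent.TH301.EQ

variable {Ω : Set R3} {ν T : ℝ} {u : ℝ → L2 Ω R3} {G : ℝ → L2 Ω Mat} {f : ℝ → L2 Ω R3}

/-- the classes of all weak solutions -/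
theorem mixed_energy (hΩ : IsOpen Ω) (hu : IsWeakSolution Ω ν T u G f) {c d : ℝ≥0∞} (hc : c ≠ 0)
    (hy1 : 1 / 6 ≤ (1 / d).toReal) (hy2 : (1 / d).toReal ≤ 1 / 2)
    (e : 2 * (1 / c).toReal = 3 / 2 - 3 * (1 / d).toReal) :
    Mixed Ω T c d (fun t x => (u t).fn x) := by
  obtain ⟨B, hB, hv⟩ := energy (Ω := (Ω : Set H772R2.NS.E3)) hΩ (toNS hu) hc hy1 hy2 e
  exact ⟨B, hB, hv⟩

theorem norm_e (k : Fin 3) : ‖e k‖ = 1 := by
  have h : ‖(EuclideanSpace.single k (1 : ℝ) : H772R2.NS.E3)‖ = 1 := by simp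
  exact h

theorem norm_unitMat (i j : Fin 3) : ‖unitMat i j‖ = 1 := by
  have h : ‖(EuclideanSpace.single (i, j) (1 : ℝ) : H772R2.NS.M3)‖ = 1 := by simp
  exact h

theorem Mixed.comp {a b : ℝ≥0∞} {v : ℝ → R3 → R3} (h : Mixed Ω T a b v) (k : Fin 3) :
    Mixed Ω T a b (fun t x => ⟪e k, v t x⟫_ℝ) := by
  obtain ⟨B, hB, hv⟩ := h
  refine ⟨B, hB, ?_⟩
  filter_upwards [hv] with t ht
  have hc : Continuous (fun y : H772R2.NS.E3 => ⟪(e k : H772R2.NS.E3), y⟫_ℝ) :=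
    continuous_const.inner continuous_id
  refine ⟨hc.comp_aestronglyMeasurable ht.1, ?_⟩
  refine le_trans (eLpNorm_mono fun x => ?_) ht.2
  rw [Real.norm_eq_abs]
  refine (abs_real_inner_le_norm _ _).trans ?_
  rw [norm_e, one_mul]

theorem Mixed.vort {a b : ℝ≥0∞} {v : ℝ → R3 → Mat} (h : Mixed Ω T a b v) (k : Fin 3) :
    Mixed Ω T a b (fun t x => vort k (v t x)) := by
  obtain ⟨B, hB, hv⟩ := h
  refine ⟨fun t => 2 * B t, hB.const_mul 2, ?_⟩
  filter_upwards [hv] with t ht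
  have hc : Continuous (fun y : H772R2.NS.M3 =>
      ⟪(unitMat (k + 2) (k + 1) : H772R2.NS.M3), y⟫_ℝ
        - ⟪(unitMat (k + 1) (k + 2) : H772R2.NS.M3), y⟫_ℝ) :=
    (continuous_const.inner continuous_id).sub (continuous_const.inner continuous_id)
  refine ⟨hc.comp_aestronglyMeasurable ht.1, ?_⟩
  have h1 : eLpNorm (fun x => EC.vort k (v t x)) b (volume.restrict Ω)
      ≤ eLpNorm (fun x => (2 : ℝ) * ‖v t x‖) b (volume.restrict Ω) := by
    refine eLpNorm_mono fun x => ?_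
    have a1 := abs_real_inner_le_norm (unitMat (k + 2) (k + 1)) (v t x)
    have a2 := abs_real_inner_le_norm (unitMat (k + 1) (k + 2)) (v t x)
    rw [norm_unitMat, one_mul] at a1 a2
    have a3 := abs_sub ⟪unitMat (k + 2) (k + 1), v t x⟫_ℝ ⟪unitMat (k + 1) (k + 2), v t x⟫_ℝ
    have a4 : 0 ≤ ‖v t x‖ := norm_nonneg _
    rw [Real.norm_eq_abs, Real.norm_eq_abs, abs_of_nonneg (by positivity : 0 ≤ 2 * ‖v t x‖)]
    unfold EC.vort
    linarith
  have h2 : eLpNorm (fun x => (2 : ℝ) * ‖v t x‖) b (volume.restrict Ω)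
      = ENNReal.ofReal 2 * eLpNorm (v t) b (volume.restrict Ω) := by
    have h3 := eLpNorm_const_smul (2 : ℝ) (fun x => ‖v t x‖) b (volume.restrict Ω)
    rw [Real.enorm_eq_ofReal zero_le_two] at h3
    have h4 : eLpNorm (fun x => ‖v t x‖) b (volume.restrict Ω)
        = eLpNorm (v t) b (volume.restrict Ω) := eLpNorm_norm _
    rw [h4] at h3
    exact h3
  refine h1.trans ?_
  rw [h2, ENNReal.ofReal_mul zero_le_two]
  exact mul_le_mul_right ht.2 _

/-- the gradient is square integrable -/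
theorem mixed_grad (hu : IsWeakSolution Ω ν T u G f) :
    Mixed Ω T 2 2 (fun t x => (G t).fn x) := by
  refine ⟨fun t => ‖G t‖, hu.gradL2.norm, Eventually.of_forall fun t => ⟨?_, ?_⟩⟩
  · exact (Lp.memLp (show Lp Mat 2 ((volume : Measure R3).restrict Ω) from G t)).aestronglyMeasurable
  · refine le_of_eq ?_
    have h1 : eLpNorm (G t).fn 2 (volume.restrict Ω)
        = ‖(show Lp Mat 2 ((volume : Measure R3).restrict Ω) from G t)‖ₑ := (Lp.enorm_def _).symm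
    rw [ofReal_norm]
    exact h1

/-- real exponents -/
theorem half_compl {x : ℝ≥0∞} (hx : x ≤ 1) :
    1 / ((1 - x) / 2)⁻¹ = (1 - x) / 2 ∧ x + (1 - x) / 2 + (1 - x) / 2 = 1 ∧
      ((1 - x) / 2).toReal = (1 - x.toReal) / 2 := by
  refine ⟨by rw [one_div, inv_inv], ?_, ?_⟩
  · rw [add_assoc, ENNReal.add_halves, add_tsub_cancel_of_le hx]
  · rw [ENNReal.toReal_div, ENNReal.toReal_sub_of_le hx ENNReal.one_ne_top, ENNReal.toReal_one,
      ENNReal.toReal_ofNat]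

theorem half_sub {x : ℝ≥0∞} (hx : x ≤ 1 / 2) :
    1 / (1 / 2 - x)⁻¹ = 1 / 2 - x ∧ 1 / 2 + x + (1 / 2 - x) = 1 ∧
      (1 / 2 - x).toReal = 1 / 2 - x.toReal := by
  refine ⟨by rw [one_div, inv_inv], ?_, ?_⟩
  · rw [add_assoc, add_tsub_cancel_of_le hx, one_div, ENNReal.inv_two_add_inv_two]
  · rw [ENNReal.toReal_sub_of_le hx (by simp), ENNReal.toReal_div, ENNReal.toReal_one,
      ENNReal.toReal_ofNat]

theorem fin3_cases (k j : Fin 3) : j = k ∨ j + 1 = k ∨ j + 2 = k := by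
  revert k j
  decide

/-- **One component of the velocity in a Serrin class and the same component of the vorticity in
`L^α(0,T; L^β)`, `2/α + 3/β = 2`.** -/
theorem pub_one (hΩ : IsOpen Ω) (hν : 0 ≤ ν) (hT : 0 < T) (hu : IsWeakSolution Ω ν T u G f)
    (k : Fin 3) {a b α β : ℝ≥0∞} (h1 : 2 / a + 3 / b = 1) (h2 : 2 / α + 3 / β = 2)
    (hv : Mixed Ω T a b (fun t x => ⟪e k, (u t).fn x⟫_ℝ))
    (hw : Mixed Ω T α β (fun t x => vort k ((G t).fn x))) :
    ∀ t ∈ Icc 0 T, energyDefect ν u G f t = 0 := by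
  have d2 : ∀ y : ℝ≥0∞, 2 / y = 2 * (1 / y) := fun y => by
    rw [div_eq_mul_inv, one_div]
  have d3 : ∀ y : ℝ≥0∞, 3 / y = 3 * (1 / y) := fun y => by
    rw [div_eq_mul_inv, one_div]
  have n2 : ∀ y : ℝ≥0∞, 1 / y ≠ ⊤ → y ≠ 0 := by
    rintro y hy rfl
    exact hy (ENNReal.div_zero one_ne_zero)
  rw [d2, d3] at h1 h2
  set xa : ℝ≥0∞ := 1 / a with hxa
  set xb : ℝ≥0∞ := 1 / b with hxb
  set yα : ℝ≥0∞ := 1 / α with hyα
  set yβ : ℝ≥0∞ := 1 / β with hyβ
  have fa : xa ≠ ⊤ := by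
    intro h; rw [h] at h1; simp at h1
  have fb : xb ≠ ⊤ := by
    intro h; rw [h] at h1; simp at h1
  have fα : yα ≠ ⊤ := by
    intro h; rw [h] at h2; simp at h2
  have fβ : yβ ≠ ⊤ := by
    intro h; rw [h] at h2; simp at h2
  have r1 : 2 * xa.toReal + 3 * xb.toReal = 1 := by
    have := congrArg ENNReal.toReal h1
    rwa [ENNReal.toReal_add (ENNReal.mul_ne_top (by norm_num) fa)
      (ENNReal.mul_ne_top (by norm_num) fb), ENNReal.toReal_mul, ENNReal.toReal_mul,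
      ENNReal.toReal_ofNat, ENNReal.toReal_ofNat, ENNReal.toReal_one] at this
  have r2 : 2 * yα.toReal + 3 * yβ.toReal = 2 := by
    have := congrArg ENNReal.toReal h2
    rwa [ENNReal.toReal_add (ENNReal.mul_ne_top (by norm_num) fα)
      (ENNReal.mul_ne_top (by norm_num) fβ), ENNReal.toReal_mul, ENNReal.toReal_mul,
      ENNReal.toReal_ofNat, ENNReal.toReal_ofNat] at this
  have pa := ENNReal.toReal_nonneg (a := xa)
  have pb := ENNReal.toReal_nonneg (a := xb)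
  have pα := ENNReal.toReal_nonneg (a := yα)
  have pβ := ENNReal.toReal_nonneg (a := yβ)
  have le_of : ∀ {y z : ℝ≥0∞}, y ≠ ⊤ → z ≠ ⊤ → y.toReal ≤ z.toReal → y ≤ z := fun hy hz h =>
    (ENNReal.toReal_le_toReal hy hz).1 h
  have hhalf : (1 / 2 : ℝ≥0∞).toReal = 1 / 2 := by
    rw [ENNReal.toReal_div, ENNReal.toReal_one, ENNReal.toReal_ofNat]
  have ha2 : xa ≤ 1 / 2 := le_of fa (by simp) (by rw [hhalf]; linarith)
  have hb2 : xb ≤ 1 / 2 := le_of fb (by simp) (by rw [hhalf]; linarith)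
  have hα1 : yα ≤ 1 := le_of fα ENNReal.one_ne_top (by rw [ENNReal.toReal_one]; linarith)
  have hβ1 : yβ ≤ 1 := le_of fβ ENNReal.one_ne_top (by rw [ENNReal.toReal_one]; linarith)
  obtain ⟨c1, c2, c3⟩ := half_compl hα1
  obtain ⟨c4, c5, c6⟩ := half_compl hβ1
  obtain ⟨s1, s2, s3⟩ := half_sub ha2
  obtain ⟨s4, s5, s6⟩ := half_sub hb2
  -- the exponents for the vorticity
  have E1 : Mixed Ω T ((1 - yα) / 2)⁻¹ ((1 - yβ) / 2)⁻¹ (fun t x => (u t).fn x) := by
    refine mixed_energy hΩ hu (n2 _ ?_) ?_ ?_ ?_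
    · rw [c1]
      exact ENNReal.div_ne_top (ENNReal.sub_ne_top ENNReal.one_ne_top) (by norm_num)
    · rw [c4, c6]; linarith
    · rw [c4, c6]; linarith
    · rw [c1, c4, c3, c6]; linarith
  have E2 : Mixed Ω T (1 / 2 - xa)⁻¹ (1 / 2 - xb)⁻¹ (fun t x => (u t).fn x) := by
    refine mixed_energy hΩ hu (n2 _ ?_) ?_ ?_ ?_
    · rw [s1]
      exact ENNReal.sub_ne_top (by simp)
    · rw [s4, s6]; linarith
    · rw [s4, s6]; linarith
    · rw [s1, s4, s3, s6]; linarith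
  have G2 := mixed_grad hu
  refine pub_comp hΩ hν hT hu fun j => ?_
  rcases fin3_cases k j with h | h | h
  · subst h
    refine ⟨α, β, _, _, _, _, ⟨?_, ?_, fun _ => ?_⟩, hw, E1.comp _, E1.comp _⟩
    · rw [c1]; exact c2.le
    · rw [c4]; exact c5.le
    · rw [c4]; exact c5
  · refine ⟨2, 2, a, b, _, _, ⟨?_, ?_, fun _ => ?_⟩, G2.vort j, ?_, E2.comp _⟩
    · rw [s1]; exact s2.le
    · rw [s4]; exact s5.le
    · rw [s4]; exact s5
    · rw [h]; exact hv
  · refine ⟨2, 2, _, _, a, b, ⟨?_, ?_, fun _ => ?_⟩, G2.vort j, E2.comp _, ?_⟩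
    · rw [s1, add_right_comm]; exact s2.le
    · rw [s4, add_right_comm]; exact s5.le
    · rw [s4, add_right_comm]; exact s5
    · rw [h]; exact hv

end Pool.Agent.P8H70.EC
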